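import Pool.Agent.Helper3.TL.DagDefs

/-!
Definitions for the theorem on reused lines (MP_86d903_lc), with an exceptional set of variables.
-/

open Finset MP86d903

namespace Helper3.TQ

variable {n : ℕ}

/-- The coefficients of an inequality are small outside the set `Z` of variables: up to a common
positive integral factor they are integers in `[-B, B]`. -/
def IsSmallOff (B : ℕ) (Z : Set (Fin n)) (L : Ineq n) : Prop :=
  ∃ (g : ℕ) (a : Fin n → ℤ), 0 < g ∧ ∀ v, v ∉ Z → |a v| ≤ B ∧ L.coef v = g * a v

end Helper3.TQ
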