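import Pool.Agent.Helper3.TQ.Defs
import Pool.Agent.Helper3.TP.St2

/-!
One step up, for lines with small coefficients outside a set of variables.
-/

open Finset
open MP86d903 (Valid Lit inside mem_inside pt flip Clause Ineq clauseIneq vsF ngF Refutation Rule)
open Helper80.SR (Exp Closed Cl Sm)
open Helper3.TL Helper3.TL.Dag

namespace Helper3.TQ

variable {n m : ℕ} {F : Fin m → Clause n} {π : Refutation F} {S : Set (Fin π.size)}

/-- `(R, σ)` is over `(A, ρ)`. -/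
def OV (A : Finset (Fin n)) (ρ : Fin n → Bool) (R : Finset (Fin n)) (σ : Fin n → Bool) : Prop :=
  A ⊆ R ∧ ∀ i ∈ A, σ i = ρ i

/-- A line with small coefficients outside `Z ⊆ A` up to a common factor has, on the points over
`(A, ρ)`, the values of an odd form with small coefficients, up to this factor, or it never has
value 0 there. -/
theorem small_form {B : ℕ} {Z : Set (Fin n)} {L : Ineq n} (h : IsSmallOff B Z L)
    {A : Finset (Fin n)} (hZ : Z ⊆ A) (ρ : Fin n → Bool) :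
    (∃ (g : ℤ) (a : Fin n → ℤ) (e : ℤ), 0 < g ∧ (∀ v, |a v| ≤ B) ∧ Odd e ∧
      ∀ R σ, OV A ρ R σ → lvL L (pt R σ) = g * lv a e R σ) ∨
    ∀ R σ, OV A ρ R σ → lvL L (pt R σ) ≠ 0 := by
  classical
  obtain ⟨g, a, hg, haL⟩ := h
  set a' : Fin n → ℤ := fun v => if v ∈ Z then 0 else a v with ha'
  set c' : ℤ := ∑ v, (if v ∈ Z then L.coef v * pt A ρ v else 0) + (1 - 2 * L.rhs) with hc'
  have hval : ∀ R σ, OV A ρ R σ → lvL L (pt R σ) = g * ∑ v, a' v * pt R σ v + c' := by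
    intro R σ hO
    unfold lvL
    rw [hc', ← add_assoc, mul_sum, ← sum_add_distrib]
    congr 1
    refine sum_congr rfl (fun v _ => ?_)
    by_cases hv : v ∈ Z
    · have hvA : v ∈ A := hZ hv
      have h1 : pt R σ v = pt A ρ v := by
        unfold pt
        rw [if_pos (hO.1 hvA), if_pos hvA, hO.2 v hvA]
      simp only [ha', if_pos hv, h1]
      ring
    · simp only [ha', if_neg hv]
      rw [(haL v hv).2]
      ring
  have hodd : Odd c' := by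
    have h1 : Even (∑ v, (if v ∈ Z then L.coef v * pt A ρ v else 0)) := by
      refine Finset.even_sum _ (fun v _ => ?_)
      by_cases hv : v ∈ Z
      · rw [if_pos hv]
        refine Even.mul_left ?_ _
        unfold pt
        have hvA : v ∈ A := hZ hv
        rw [if_pos hvA]
        split_ifs
        · exact ⟨1, by norm_num⟩
        · exact ⟨0, by norm_num⟩
      · rw [if_neg hv]
        exact ⟨0, by norm_num⟩
    have h2 : Odd (1 - 2 * L.rhs) := ⟨-L.rhs, by ring⟩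
    exact h1.add_odd h2
  by_cases hd : (g : ℤ) ∣ c'
  · left
    obtain ⟨e, he⟩ := hd
    refine ⟨g, a', e, by exact_mod_cast hg, ?_, ?_, ?_⟩
    · intro v
      by_cases hv : v ∈ Z
      · simp [ha', hv]
      · simp only [ha', if_neg hv]
        exact (haL v hv).1
    · rw [he] at hodd
      exact (Int.odd_mul.mp hodd).2
    · intro R σ hO
      rw [hval R σ hO, he]
      unfold lv
      ring
  · right
    intro R σ hO hy
    apply hd
    rw [hval R σ hO] at hy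
    exact ⟨-∑ v, a' v * pt R σ v, by linarith⟩

/-- The form of a division step. -/
theorem small_div {B : ℕ} {Z : Set (Fin n)} {d p : Fin π.size} {c : ℕ}
    (hr : π.rule d = .div p c) (h : IsSmallOff B Z (π.line d)) {A : Finset (Fin n)} (hZ : Z ⊆ A)
    {ρ : Fin n → Bool} {R₀ : Finset (Fin n)} {σ₀ : Fin n → Bool} (hO : OV A ρ R₀ σ₀)
    (h0 : lvL (π.line d) (pt R₀ σ₀) = 0) :
    ∃ (a : Fin n → ℤ) (e : ℤ), (∀ v, |a v| ≤ B) ∧ Odd e ∧
      (∀ R σ, OV A ρ R σ → (Viol (π.line d) (pt R σ) ↔ lv a e R σ ≤ 0)) ∧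
      (∀ R σ, OV A ρ R σ → lvL (π.line d) (pt R σ) = 0 → lv a e R σ = 0) ∧
      ∀ R σ, OV A ρ R σ → lv a e R σ ≤ -1 → Viol (π.line p) (pt R σ) := by
  rcases small_form h hZ ρ with ⟨g, a, e, hg, ha, he, hv⟩ | hne
  swap
  · exact absurd h0 (hne _ _ hO)
  refine ⟨a, e, ha, he, ?_, ?_, ?_⟩
  · intro R σ hO
    rw [viol_iff, hv R σ hO]
    constructor
    · intro h1
      by_contra h2
      rw [not_le] at h2
      have := mul_pos hg h2
      omega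
    · intro h1
      exact mul_nonpos_of_nonneg_of_nonpos hg.le h1
  · intro R σ hO h1
    rw [hv R σ hO] at h1
    rcases mul_eq_zero.mp h1 with h2 | h2
    · omega
    · exact h2
  · intro R σ hO h1
    apply (div_values hr _).2
    rw [hv R σ hO]
    nlinarith

/-- One step up. -/
theorem d_step (hAx : StAx) {B q κ : ℕ} {Z : Set (Fin n)} {Sp : Fin π.size → Prop} (hq1 : 1 ≤ q)
    {A : Finset (Fin n)} {ρ : Fin n → Bool} (hZ : Z ⊆ A) {i x : Fin π.size}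
    (hix : Reach π S i x)
    (hstop : ∀ y x, Reach π S i y → Prem π x y → x ∈ S → ∀ R σ, Pt F q κ A ρ R σ →
      ¬ Viol (π.line x) (pt R σ))
    (hdiv : ∀ d p c, Reach π S i d → π.rule d = .div p c → Sp d ∨
      IsSmallOff B Z (π.line d) ∨
      (∀ R σ, Pt F q κ A ρ R σ → ¬ Viol (π.line p) (pt R σ) → ¬ Viol (π.line d) (pt R σ)))
    (Q : Finset (Fin n) → (Fin n → Bool) → Prop) (hQ : ∀ R σ, Q R σ → Pt F q κ A ρ R σ)
    (hne : ∃ R σ, Q R σ) (hv : ∀ R σ, Q R σ → Viol (π.line x) (pt R σ)) :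
    DConcl π S q κ Sp A ρ i ∨ ∃ d p c, Reach π S x d ∧ π.rule d = .div p c ∧
      ∃ (a : Fin n → ℤ) (e : ℤ), (∀ v, |a v| ≤ B) ∧ Odd e ∧
      (∀ R σ, OV A ρ R σ → (Viol (π.line d) (pt R σ) ↔ lv a e R σ ≤ 0)) ∧
      (∀ R σ, OV A ρ R σ → lv a e R σ ≤ -1 → Viol (π.line p) (pt R σ)) ∧
      (∀ R σ, Q R σ → lv a e R σ ≤ 0) ∧ ∃ Rq σq, Q Rq σq ∧ lv a e Rq σq = 0 := by
  set X : Set (Fin n → ℤ) := {y | ∃ R σ, Q R σ ∧ y = pt R σ} with hX
  have hXne : X.Nonempty := by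
    obtain ⟨R, σ, h⟩ := hne
    exact ⟨pt R σ, R, σ, h, rfl⟩
  have hXax : ∀ y ∈ X, AxOK F y := by
    rintro y ⟨R, σ, h, rfl⟩
    have h1 := hQ R σ h
    exact hAx n m F q R σ hq1 h1.2.1 h1.2.2.2.1
  have hXv : ∀ y ∈ X, Viol (π.line x) y := by
    rintro y ⟨R, σ, h, rfl⟩
    exact hv R σ h
  have hOV : ∀ R σ, Q R σ → OV A ρ R σ := fun R σ h => ⟨(hQ R σ h).1, (hQ R σ h).2.2.2.2⟩
  rcases dag1 (S := S) (i := x) hXne hXax (by
      rintro y x' h1 h2 h3 z ⟨R, σ, hz, rfl⟩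
      exact hstop y x' (hix.trans h1) h2 h3 R σ (hQ R σ hz)) x .refl hXv with
    ⟨y, j, k, α, β, h1, h2, h3, h4, h5, ⟨z₁, h6, h7⟩, z₂, h8, h9⟩ |
    ⟨d, p, c, h1, hr, h2, y, h3, h4⟩
  · left
    left
    obtain ⟨R₁, σ₁, hq₁, rfl⟩ := h6
    obtain ⟨R₂, σ₂, hq₂, rfl⟩ := h8
    exact ⟨y, j, k, α, β, hix.trans h1, h2, h3, h4, h5, ⟨R₁, σ₁, hQ _ _ hq₁, h7⟩, R₂, σ₂,
      hQ _ _ hq₂, h9⟩
  · obtain ⟨Rq, σq, hqq, rfl⟩ := h3
    rcases hdiv d p c (hix.trans h1) hr with hsp | hbd | hcr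
    · left
      right
      exact ⟨d, p, c, hix.trans h1, hr, hsp, Rq, σq, hQ _ _ hqq, h2 _ ⟨Rq, σq, hqq, rfl⟩⟩
    · right
      have h0 := (div_values hr (pt Rq σq)).1 (h2 _ ⟨Rq, σq, hqq, rfl⟩) h4
      obtain ⟨a, e, ha, he, k1, k2, k3⟩ := small_div hr hbd hZ (hOV _ _ hqq) h0
      refine ⟨d, p, c, h1, hr, a, e, ha, he, k1, k3, ?_, Rq, σq, hqq, k2 _ _ (hOV _ _ hqq) h0⟩
      intro R σ h
      exact (k1 R σ (hOV _ _ h)).mp (h2 _ ⟨R, σ, h, rfl⟩)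
    · exact absurd (h2 _ ⟨Rq, σq, hqq, rfl⟩) (hcr Rq σq (hQ _ _ hqq) h4)

/-- The local theorem for given numbers. -/
def LocalD (B D κ : ℕ) : Prop := ∀ (n m : ℕ) (F : Fin m → Clause n)
    (π : Refutation F) (S : Set (Fin π.size)) (q : ℕ) (Z : Set (Fin n))
    (Sp : Fin π.size → Prop) (A : Finset (Fin n)) (ρ : Fin n → Bool) (i : Fin π.size),
    Env (vsF F) q D κ A → Z ⊆ A → Valid (vsF F) (ngF F) ρ A →
    Viol (π.line i) (pt A ρ) →
    (∀ y x, Reach π S i y → Prem π x y → x ∈ S → ∀ R σ, Pt F q κ A ρ R σ →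
      ¬ Viol (π.line x) (pt R σ)) →
    (∀ d p c, Reach π S i d → π.rule d = .div p c → Sp d ∨
      IsSmallOff B Z (π.line d) ∨
      (∀ R σ, Pt F q κ A ρ R σ → ¬ Viol (π.line p) (pt R σ) → ¬ Viol (π.line d) (pt R σ))) →
    DConcl π S q κ Sp A ρ i

/-- The global statement for given numbers. -/
def IndW (B D κ : ℕ) : Prop := ∀ (n m : ℕ) (F : Fin m → Clause n) (π : Refutation F)
    (q R₀ M₀ P w l K a : ℕ) (A₀ Hd : Finset (Fin n)) (ρ₀ : Fin n → Bool) (Z : Set (Fin n))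
    (G Ro : Fin π.size → Prop) (X : Finset (Fin π.size)),
    Z ⊆ Hd → Exp (vsF F) R₀ → 2 * (M₀ + 1) ≤ q → 2 * (M₀ + 1) + q ≤ R₀ →
    3 * (P + 4 * κ * K) + w + κ ≤ M₀ → 2 * (3 * (l + w) + Hd.card) ≤ P →
    2 * (P + 4 * κ * K) + q < R₀ →
    Closed (vsF F) q A₀ → Sm (vsF F) l A₀ → Valid (vsF F) (ngF F) ρ₀ A₀ →
    (∀ i ∉ Hd, (univ.filter (fun c => i ∈ vsF F c)).card ≤ D) →
    (∀ i, G i ∨ (univ.filter (fun v => (π.line i).coef v ≠ 0)).card ≤ w ∨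
      ∀ R σ, OKp F q M₀ A₀ ρ₀ R σ → ¬ Viol (π.line i) (pt R σ)) →
    (∀ d p c, G d → π.rule d = .div p c → Ro d ∨ (d ∈ X ∧ IsSmallOff B Z (π.line d)) ∨
      ∀ R σ, OKp F q M₀ A₀ ρ₀ R σ → ¬ Viol (π.line p) (pt R σ) → ¬ Viol (π.line d) (pt R σ)) →
    X.card < 2 ^ a → a ≤ K →
    (∀ i, G i → FewW π G (fun x => cost a (outs (Prem π) x)) (K - a) i) →
    (∀ i, G i → Few π G Ro K i) → False

end Helper3.TQ
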