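import Pool.Agent.Helper3.TL.DagW2
import Pool.Agent.Helper3.TQ.Step

/-!
The deterministic part of the theorem, with an exceptional set of variables (MP_86d903_lc).
-/

open Finset
open MP86d903 (Valid Lit inside mem_inside pt flip Clause Ineq clauseIneq vsF ngF IsLight falsity
  hits Refutation)
open Helper80.SR (Exp Closed Cl Sm)
open Helper3.TL Helper3.TL.Dag

namespace Helper3.TQ

variable {n m : ℕ}

theorem detP (F : Fin m → Clause n) {D B κ : ℕ} (Y : Set (Fin n))
    (hκ : ∀ (π : Refutation F)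
      (q R₀ M₀ P w l K a : ℕ) (A₀ Hd : Finset (Fin n)) (ρ₀ : Fin n → Bool)
      (G Ro : Fin π.size → Prop) (X : Finset (Fin π.size)),
      Y ⊆ Hd → Exp (vsF F) R₀ → 2 * (M₀ + 1) ≤ q → 2 * (M₀ + 1) + q ≤ R₀ →
      3 * (P + 4 * κ * K) + w + κ ≤ M₀ → 2 * (3 * (l + w) + Hd.card) ≤ P →
      2 * (P + 4 * κ * K) + q < R₀ →
      Closed (vsF F) q A₀ → Sm (vsF F) l A₀ → Valid (vsF F) (ngF F) ρ₀ A₀ →
      (∀ i ∉ Hd, (univ.filter (fun c => i ∈ vsF F c)).card ≤ D) →
      (∀ i, G i ∨ (univ.filter (fun v => (π.line i).coef v ≠ 0)).card ≤ w ∨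
        ∀ R σ, OKp F q M₀ A₀ ρ₀ R σ → ¬ Viol (π.line i) (pt R σ)) →
      (∀ d p c, G d → π.rule d = .div p c → Ro d ∨ (d ∈ X ∧ IsSmallOff B Y (π.line d)) ∨
        ∀ R σ, OKp F q M₀ A₀ ρ₀ R σ → ¬ Viol (π.line p) (pt R σ) →
          ¬ Viol (π.line d) (pt R σ)) →
      X.card < 2 ^ a → a ≤ K →
      (∀ i, G i → FewW π G (fun x => cost a (outs (Prem π) x)) (K - a) i) →
      (∀ i, G i → Few π G Ro K i) → False)
    {R₀ M₀ P w l h K : ℕ} {ε δ η θ : ℝ} (hExp : Exp (vsF F) R₀) (h4 : 4 * (M₀ + 1) ≤ R₀)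
    (hη : (M₀ : ℝ) ≤ η * n) (hP : 3 * (P + 4 * κ * K) + w + κ ≤ M₀)
    (Hd : Finset (Fin n)) (hYH : Y ⊆ Hd) (hH : 2 * (3 * (l + w) + Hd.card) ≤ P)
    (hdeg : ∀ i ∉ Hd, (univ.filter (fun c => i ∈ vsF F c)).card ≤ D)
    (hw1 : ε * n ≤ w) (hw2 : ∀ k : ℕ, ε * n ≤ k → w ≤ k) (hwn : w ≤ n) (h74 : 74 * l ≤ w)
    (hn : 0 < n) (hδ1 : 0 < δ * n) (hδh : δ * n ≤ h) (hθδ : θ ≤ δ * n) (hθK : 3 * θ ≤ K)
    (hsmall : (2 : ℝ) ^ (δ * n) * (1 - w / (8 * n)) ^ l * 2 ^ h < 2)
    (π : Refutation F) (a : ℕ) (X : Set (Fin π.size)) (hXa : X.ncard < 2 ^ a)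
    (hX : ∀ i, π.IsCritical ε η i → IsSmallOff B Y (π.line i) → i ∈ X) :
    ∃ p, π.IsPath p ∧
      (∀ i ∈ p, IsWide ε (π.line i) ∧ ¬ (i ∈ X ∧ IsLight ε δ (π.line i))) ∧
      (θ ≤ a + (p.map (fun i => min a (Nat.log 2 (uses π i)))).sum ∨
        θ ≤ {i | i ∈ p ∧ π.IsCritical ε η i ∧ ¬ IsSmallOff B Y (π.line i)}.ncard) := by
  classical
  by_contra hno0
  set G : Fin π.size → Prop := fun i =>
    IsWide ε (π.line i) ∧ ¬ (i ∈ X ∧ IsLight ε δ (π.line i)) with hG
  have hno : ∀ p, π.IsPath p → (∀ i ∈ p, G i) →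
      (a + (p.map (fun i => min a (Nat.log 2 (uses π i)))).sum : ℝ) < θ ∧
        ({i | i ∈ p ∧ π.IsCritical ε η i ∧ ¬ IsSmallOff B Y (π.line i)}.ncard : ℝ) < θ := by
    intro p hp hpg
    by_contra hcon
    apply hno0
    refine ⟨p, hp, hpg, ?_⟩
    by_contra h2
    rw [not_or, not_le, not_le] at h2
    exact hcon h2
  have haθ : (a : ℝ) ≤ θ := by
    have h1 := (hno [] (by unfold Refutation.IsPath; exact List.isChain_nil) (by simp)).1
    simp only [List.map_nil, List.sum_nil, Nat.cast_zero, add_zero] at h1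
    exact h1.le
  have haδ : (a : ℝ) ≤ δ * n := haθ.trans hθδ
  have haK : a ≤ K := by
    have h0 : (0 : ℝ) ≤ a := Nat.cast_nonneg a
    have h1 : (a : ℝ) ≤ K := by linarith
    exact_mod_cast h1
  set Xf : Finset (Fin π.size) := univ.filter (fun i => i ∈ X) with hXf
  have hXfc : Xf.card = X.ncard := by
    rw [← Set.ncard_coe_finset]
    congr 1
    ext i
    simp [hXf]
  set q := 2 * (M₀ + 1) with hq
  set 𝓔 : Finset (Fin π.size) := univ.filter
    (fun i => i ∈ X ∧ IsLight ε δ (π.line i)) with h𝓔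
  have h𝓔card : (𝓔.card : ℝ) ≤ 2 ^ (δ * n) := by
    have h1 : 𝓔.card ≤ X.ncard := by
      rw [← Set.ncard_coe_finset]
      refine Set.ncard_le_ncard ?_ (Set.toFinite _)
      intro i hi
      exact (mem_filter.mp (mem_coe.mp hi)).2.1
    have h2 : (𝓔.card : ℝ) ≤ 2 ^ a := by
      have h3 : 𝓔.card ≤ 2 ^ a := by omega
      exact_mod_cast h3
    refine h2.trans ?_
    rw [← Real.rpow_natCast]
    exact Real.rpow_le_rpow_of_exponent_le (by norm_num) haδ
  set Z : Fin π.size → Finset (Fin n) := fun i =>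
    univ.filter (fun v => (falsity (π.line i) : ℝ) ≤ δ * n * |((π.line i).coef v : ℝ)|) with hZ
  have hZcard : ∀ i ∈ 𝓔, w ≤ (Z i).card := by
    intro i hi
    have h1 : IsLight ε δ (π.line i) := (mem_filter.mp hi).2.2
    apply hw2
    unfold IsLight at h1
    rw [← Set.ncard_coe_finset]
    refine h1.trans (le_of_eq ?_)
    congr 2
    ext v
    simp [hZ]
  have hw8 : 0 ≤ 1 - (w : ℝ) / (8 * n) := by
    have h1 : (w : ℝ) ≤ n := by exact_mod_cast hwn
    have h2 : (0 : ℝ) < n := by exact_mod_cast hn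
    rw [sub_nonneg, div_le_one (by positivity)]
    linarith
  obtain ⟨A₀, ρ₀, hcl₀, hsm₀, hval₀, hhits⟩ := Helper80.SR.exists_root (ng := ngF F)
    (κ := Fin π.size) (M := M₀)
    (q := q) (fun c => MP86d903.vsF_card F c) hExp (by omega) (by omega) 𝓔 Z
    (fun i v => decide (0 ≤ (π.line i).coef v)) (w := w) (h := h) (t := l)
    hZcard (by rw [Fintype.card_fin]; exact hwn) (by rw [Fintype.card_fin]; exact hn)
    (by omega) h74 (by
      rw [Fintype.card_fin]
      refine lt_of_le_of_lt ?_ hsmall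
      refine mul_le_mul_of_nonneg_right ?_ (by positivity)
      exact mul_le_mul_of_nonneg_right h𝓔card (pow_nonneg hw8 _))
  refine hκ π q R₀ M₀ P w l K a A₀ Hd ρ₀ G (fun i => π.IsCritical ε η i ∧ ¬ IsSmallOff B Y (π.line i)) Xf hYH hExp le_rfl
    (by omega) hP hH (by omega) hcl₀ hsm₀ hval₀ hdeg ?_ ?_ (by rw [hXfc]; exact hXa) haK ?_ ?_
  · intro i
    by_cases hGi : G i
    · exact Or.inl hGi
    right
    by_cases hwide : IsWide ε (π.line i)
    · right
      have hXi : i ∈ X ∧ IsLight ε δ (π.line i) := by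
        by_contra h
        exact hGi ⟨hwide, h⟩
      rintro R σ ⟨g1, g2, g3, g4, g5⟩ hv
      have h1 := hhits i (mem_filter.mpr ⟨mem_univ _, hXi⟩)
      have h2 := Helper80.SR.holds_light (k := R.card) (vs := vsF F) (ng := ngF F) (q := q)
        (A₀ := A₀) (ρ₀ := ρ₀) (δ := δ) (by linarith) hδh (π.line i) (Z i)
        (fun v hv => (mem_filter.mp hv).2) h1
      have hin : 19 * (inside (vsF F) R).card ≤ 10 * R.card :=
        Helper80.SR.card_inside_le hExp R (by omega)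
      have h3 := h2 R σ ⟨g2, g1, ⟨by omega, hin⟩, g4, g5⟩
      unfold Viol at hv
      omega
    · left
      unfold IsWide at hwide
      rw [not_le] at hwide
      have h3 : ({v | (π.line i).coef v ≠ 0}.ncard : ℝ) ≤ w := hwide.le.trans hw1
      have h4 : {v | (π.line i).coef v ≠ 0}.ncard ≤ w := by exact_mod_cast h3
      rw [← Set.ncard_coe_finset]
      refine le_trans (le_of_eq ?_) h4
      congr 1
      ext v
      simp
  · intro d p c hGd hr
    by_cases hcrit : π.IsCritical ε η d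
    · by_cases hbd : IsSmallOff B Y (π.line d)
      · exact Or.inr (Or.inl ⟨mem_filter.mpr ⟨mem_univ _, hX d hcrit hbd⟩, hbd⟩)
      · exact Or.inl ⟨hcrit, hbd⟩
    · right
      right
      rintro R σ ⟨g1, g2, g3, g4, g5⟩ h6 h7
      apply hcrit
      refine ⟨hGd.1, p, c, hr, pt R σ, ?_, ?_, ?_, h7⟩
      · intro v
        unfold pt
        split_ifs <;> simp
      · have h3 : {v | pt R σ v ≠ 1}.ncard ≤ M₀ := by
          have h4 : {v | pt R σ v ≠ 1} ⊆ (R : Set (Fin n)) := by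
            intro v hv
            by_contra hvA
            exact hv (by
              unfold pt
              exact if_neg (fun hva => hvA hva))
          refine (Set.ncard_le_ncard h4 (Set.toFinite _)).trans ?_
          rw [Set.ncard_coe_finset]
          exact g3
        refine le_trans ?_ hη
        exact_mod_cast h3
      · unfold Viol at h6
        omega
  · intro i _ p hp hpg
    have h1 := (hno (i :: p) hp hpg).1
    have h2 : ((i :: p).map (fun x => cost a (outs (Prem π) x))).sum ≤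
        3 * ((i :: p).map (fun x => min a (Nat.log 2 (uses π x)))).sum := by
      simp only [outs_eq]
      exact sum_cost_le a (uses π) (i :: p)
    set t := ((i :: p).map (fun x => min a (Nat.log 2 (uses π x)))).sum with ht
    set t' := ((i :: p).map (fun x => cost a (outs (Prem π) x))).sum with ht'
    have h3 : ((a + t' : ℕ) : ℝ) ≤ K := by
      have h4 : ((a + t' : ℕ) : ℝ) ≤ ((3 * (a + t) : ℕ) : ℝ) := by
        exact_mod_cast (by omega : a + t' ≤ 3 * (a + t))
      push_cast at h4 ⊢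
      linarith
    have h5 : a + t' ≤ K := by exact_mod_cast h3
    omega
  · intro i _ p hp hpg
    have h1 := (hno (i :: p) hp hpg).2
    have h2 : (({x | x ∈ (i :: p) ∧ π.IsCritical ε η x ∧ ¬ IsSmallOff B Y (π.line x)}.ncard : ℕ) : ℝ) ≤ K := by linarith
    exact_mod_cast h2

end Helper3.TQ
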