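import Pool.Agent.Helper30.TQ.St

/-!
# Project TQ, module THU: the parametric Thue equation
-/

set_option autoImplicit false

namespace Pool.Agent.Helper3.TQ

open Pool.Agent.Helper30.TQ

private lemma nm_one (c : ℤ) : nm c (1, 0, 0) = 1 := by
  unfold nm; ring

private lemma nm_gen (c : ℤ) : nm c (1, c, 0) = 1 := by
  unfold nm; ring

private lemma ev_one (a : ℝ) : ev a (1, 0, 0) = 1 := by
  unfold ev; push_cast; ring

private lemma ev_gen (c : ℤ) (a : ℝ) : ev a (1, c, 0) = 1 + (c : ℝ) * a := by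
  unfold ev; push_cast; ring

private lemma nm_pw (hA : StALG) (c : ℤ) (n : ℕ) : nm c (pw c n) = 1 := by
  induction n with
  | zero => exact nm_one c
  | succ n ih =>
    show nm c (mu c (pw c n) (1, c, 0)) = 1
    rw [(hA c (pw c n) (1, c, 0) (1, 0, 0)).1, ih, nm_gen, one_mul]

private lemma ev_mu (hA : StALG) {c : ℤ} {a : ℝ} (ha : a ^ 3 + 4 * (c : ℝ) * a + 4 = 0)
    (u v : ℤ × ℤ × ℤ) : ev a (mu c u v) = ev a u * ev a v := by
  obtain ⟨-, -, -, -, -, h⟩ := hA c u v (1, 0, 0)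
  exact h a ha

private lemma ev_pw (hA : StALG) {c : ℤ} {a : ℝ} (ha : a ^ 3 + 4 * (c : ℝ) * a + 4 = 0) (n : ℕ) :
    ev a (pw c n) = (1 + (c : ℝ) * a) ^ n := by
  induction n with
  | zero => rw [pow_zero]; exact ev_one a
  | succ n ih =>
    show ev a (mu c (pw c n) (1, c, 0)) = _
    rw [ev_mu hA ha, ih, ev_gen, pow_succ]

private lemma iv_spec (hA : StALG) {c : ℤ} {a : ℝ} (ha : a ^ 3 + 4 * (c : ℝ) * a + 4 = 0)
    {v : ℤ × ℤ × ℤ} (hv : nm c v = 1) : nm c (iv c v) = 1 ∧ ev a v * ev a (iv c v) = 1 := by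
  obtain ⟨-, h2, -, -, -, -⟩ := hA c v v (1, 0, 0)
  rw [hv] at h2
  constructor
  · have h3 := (hA c v (iv c v) (1, 0, 0)).1
    rw [h2, nm_one, hv, one_mul] at h3
    exact h3.symm
  · rw [← ev_mu hA ha, h2, ev_one]

private lemma inj (hI : StINJ) {c : ℤ} (hc : 3 ≤ c) {a : ℝ} (ha : Rt c a) {u v : ℤ × ℤ × ℤ}
    (h : ev a u = ev a v) : u = v := by
  have h1 : ev a (u.1 - v.1, u.2.1 - v.2.1, u.2.2 - v.2.2) = 0 := by
    unfold ev at h ⊢
    push_cast
    linear_combination h
  have h2 := (hI c hc a ha).1 _ h1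
  simp only [Prod.mk.injEq] at h2
  obtain ⟨e1, e2, e3⟩ := h2
  refine Prod.ext (by linarith) (Prod.ext (by linarith) (by linarith))

/-- Module THU. -/
theorem hTHU (hA : StALG) (hR : StRTE) (hI : StINJ) (hS : StSTP) (hP : StPAD) : StTHU := by
  intro c hc h3 X Y hXY
  by_cases hY : Y = 0
  · left
    refine ⟨?_, hY⟩
    rw [hY] at hXY
    have h1 : X ^ 3 = 1 := by linear_combination hXY
    have h2 : (X - 1) * (X ^ 2 + X + 1) = 0 := by linear_combination h1
    rcases mul_eq_zero.1 h2 with h | h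
    · linarith
    · nlinarith [sq_nonneg (2 * X + 1)]
  · right
    obtain ⟨a, ha⟩ := hR c hc
    have ha' := ha
    obtain ⟨r1, r2, r3, r4, r5, -⟩ := ha'
    obtain ⟨u, hu⟩ : ∃ u : ℤ × ℤ × ℤ, u = (X, -Y, 0) := ⟨_, rfl⟩
    have hcR : (3 : ℝ) ≤ c := by exact_mod_cast hc
    have hY2 : (1 : ℝ) ≤ (Y : ℝ) ^ 2 := by
      have h : (1 : ℤ) ≤ Y ^ 2 := by
        have := sq_nonneg Y
        have h' : Y ^ 2 ≠ 0 := pow_ne_zero 2 hY
        omega
      exact_mod_cast h
    have hXYR : (X : ℝ) ^ 3 + 4 * c * X * Y ^ 2 + 4 * Y ^ 3 = 1 := by exact_mod_cast hXY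
    have hE : ev a u = X - a * Y := by
      rw [hu]
      unfold ev
      push_cast
      ring
    have hprod : ev a u * ((X + a * Y / 2) ^ 2 + (3 * a ^ 2 / 4 + 4 * c) * Y ^ 2) = 1 := by
      rw [hE]
      linear_combination hXYR - (Y : ℝ) ^ 3 * r1
    have hB : 12 ≤ ((X : ℝ) + a * Y / 2) ^ 2 + (3 * a ^ 2 / 4 + 4 * c) * (Y : ℝ) ^ 2 := by
      have h1 : (0 : ℝ) ≤ ((X : ℝ) + a * Y / 2) ^ 2 := sq_nonneg _
      have h2 : (12 : ℝ) ≤ 3 * a ^ 2 / 4 + 4 * c := by nlinarith [sq_nonneg a]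
      nlinarith
    have hE0 : 0 < ev a u := by
      by_contra h
      push Not at h
      nlinarith
    have hE1 : ev a u < 1 := by
      by_contra h
      push Not at h
      nlinarith
    have hnu : nm c u = 1 := by
      rw [hu]
      unfold nm
      linear_combination hXY
    obtain ⟨m, hm1, hm2⟩ := exists_nat_pow_near_of_lt_one hE0 hE1.le r4 r5
    have hem : 0 < (1 + (c : ℝ) * a) ^ m := pow_pos r4 m
    have hEm : ev a u = (1 + (c : ℝ) * a) ^ m := by
      rcases hm2.lt_or_eq with h | h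
      · exfalso
        obtain ⟨i1, i2⟩ := iv_spec hA r1 (nm_pw hA c m)
        rw [ev_pw hA r1] at i2
        have hw1 : nm c (mu c u (iv c (pw c m))) = 1 := by
          rw [(hA c u (iv c (pw c m)) (1, 0, 0)).1, hnu, i1, one_mul]
        have hw2 : ev a (mu c u (iv c (pw c m))) * (1 + (c : ℝ) * a) ^ m = ev a u := by
          rw [ev_mu hA r1]
          linear_combination ev a u * i2
        have hlt : ev a (mu c u (iv c (pw c m))) < 1 := by
          by_contra hn
          push Not at hn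
          nlinarith
        have hgt : 1 + (c : ℝ) * a < ev a (mu c u (iv c (pw c m))) := by
          by_contra hn
          push Not at hn
          rw [pow_succ] at hm1
          nlinarith
        exact hS c hc a ha _ hw1 hgt hlt
      · exact h
    have hum : u = pw c m := inj hI hc ha (by rw [hEm, ev_pw hA r1])
    have hm0 : m ≠ 0 := by
      rintro rfl
      rw [pow_zero] at hEm
      linarith
    have hm2' : ¬ 2 ≤ m := by
      intro h
      have h1 := hP c h3 (by omega) m h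
      rw [← hum, hu] at h1
      exact h1 rfl
    have hm : m = 1 := by omega
    have h1 : pw c 1 = (1, c, 0) := by
      obtain ⟨-, -, -, -, h5, -⟩ := hA c (1, c, 0) (1, 0, 0) (1, 0, 0)
      exact h5
    rw [hm, h1, hu] at hum
    simp only [Prod.mk.injEq] at hum
    exact ⟨hum.1, by linarith [hum.2.1]⟩

end Pool.Agent.Helper3.TQ
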