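import Pool.Agent.Helper3.TP.Glue
import Pool.Agent.Helper3.TQ.M_LOCAL3
import Pool.Agent.Helper3.TQ.M_INDW
import Pool.Agent.Helper3.TQ.DetP
import Pool.Agent.Helper80.TL.M_NUM
import Pool.Agent.Helper80.SR.Random

/-!
The main theorem, with an exceptional set of variables (MP_86d903_lc).
-/

open Finset Filter Topology
open MP86d903 (Clause Ineq Refutation IsLight vsF card_clause)

namespace Helper3.TQ

open Helper3.TL Helper3.TL.Dag Helper3.TP

/-- The conclusion for a formula `F`, a coefficient bound `B` and a set `Y` of variables, with the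
real number `θ` as bound. -/
def Concl {n m : ℕ} (ε δ η θ : ℝ) (F : Fin m → Clause n) (B : ℕ) (Y : Set (Fin n)) : Prop :=
  ∀ (π : Refutation F) (a : ℕ) (X : Set (Fin π.size)), X.ncard < 2 ^ a →
    (∀ i, π.IsCritical ε η i → IsSmallOff B Y (π.line i) → i ∈ X) →
    ∃ p, π.IsPath p ∧
      (∀ i ∈ p, IsWide ε (π.line i) ∧ ¬ (i ∈ X ∧ IsLight ε δ (π.line i))) ∧
      (θ ≤ a + (p.map (fun i => min a (Nat.log 2 (uses π i)))).sum ∨
        θ ≤ {i | i ∈ p ∧ π.IsCritical ε η i ∧ ¬ IsSmallOff B Y (π.line i)}.ncard)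

theorem small_mono {n : ℕ} {L : Ineq n} {Y : Set (Fin n)} {B B' : ℕ} (h : B ≤ B')
    (hL : IsSmallOff B Y L) : IsSmallOff B' Y L := by
  obtain ⟨g, a, h1, h2⟩ := hL
  exact ⟨g, a, h1, fun v hv => ⟨(h2 v hv).1.trans (by exact_mod_cast h), (h2 v hv).2⟩⟩

theorem hIndQ (hAl : PAlpha) (hB : PEvB) (B D : ℕ) : IndW B D (3 * (locK D B + 1)) :=
  hIndW Helper3.TL.hClo2 Helper80.TL.hFam1 Helper80.TL.hFam3 Helper80.TL.hAx B D
    (locK D B) _ (hLocal Helper80.TP.hScale Pool.Agent.Helper24.TP.hVpop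
      (Helper8.TP.hFP hAl hFine') Helper69.TP.hClo3 hAdj2' hNarr' Helper39.TP.hConst
      (hEv hEvA' hB) Helper80.TL.hAx B D (locK D B) le_rfl) rfl

attribute [local irreducible] locK

/-- Large `B`. -/
theorem concl_large {n m : ℕ} {ε δ η θ θ₁ : ℝ} {F : Fin m → Clause n} {B : ℕ}
    {Y : Set (Fin n)} (hB : 1 ≤ B)
    (h1 : Concl ε δ η θ₁ F 1 Y) (hθ₁ : 0 < θ₁) (hθ : θ ≤ θ₁) (hθ' : θ ≤ 1) :
    Concl ε δ η θ F B Y := by
  intro π a X hXa hX
  by_cases ha : 1 ≤ a
  · refine ⟨[], by unfold Refutation.IsPath; exact List.isChain_nil, by simp, Or.inl ?_⟩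
    have h2 : (1 : ℝ) ≤ a := by exact_mod_cast ha
    simp only [List.map_nil, List.sum_nil, Nat.cast_zero, add_zero]
    linarith
  · have ha0 : a = 0 := by omega
    subst ha0
    have hX0 : X = ∅ := by
      rw [pow_zero, Nat.lt_one_iff, Set.ncard_eq_zero (Set.toFinite _)] at hXa
      exact hXa
    have hno : ∀ i, π.IsCritical ε η i → ¬ IsSmallOff B Y (π.line i) := by
      intro i h2 h3
      have := hX i h2 h3
      rw [hX0] at this
      exact this
    obtain ⟨p, hp, hp2, hp3⟩ := h1 π 0 X hXa (fun i h2 h3 => hX i h2 (small_mono hB h3))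
    refine ⟨p, hp, hp2, ?_⟩
    rcases hp3 with h2 | h2
    · exfalso
      have h3 : (p.map (fun i => min 0 (Nat.log 2 (uses π i)))).sum = 0 := by
        apply List.sum_eq_zero
        intro x hx
        obtain ⟨i, -, rfl⟩ := List.mem_map.mp hx
        exact Nat.zero_min _
      rw [h3] at h2
      push_cast at h2
      linarith
    · right
      refine hθ.trans (h2.trans ?_)
      have h3 : {i | i ∈ p ∧ π.IsCritical ε η i ∧ ¬ IsSmallOff 1 Y (π.line i)} ⊆
          {i | i ∈ p ∧ π.IsCritical ε η i ∧ ¬ IsSmallOff B Y (π.line i)} :=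
        fun i hi => ⟨hi.1, hi.2.1, hno i hi.2.1⟩
      exact_mod_cast Set.ncard_le_ncard h3 (Set.toFinite _)

theorem main (hAl : PAlpha) (hEB : PEvB) (hPB : PPB) (Δ η : ℝ) (hΔ : 0 < Δ) (hη : 0 < η) :
    ∃ (ε δ : ℝ) (E : ℕ), 0 < ε ∧ 0 < δ ∧ Tendsto (fun n : ℕ =>
      (Nat.card {F : Fin ⌊Δ * n⌋₊ → Clause n // ∀ B : ℕ, 1 ≤ B → ∀ Y : Set (Fin n),
        Y.ncard ≤ δ * n → Concl ε δ η (δ * n / B ^ E) F B Y} : ℝ) /
        Nat.card (Fin ⌊Δ * n⌋₊ → Clause n)) atTop (𝓝 1) := by
  classical
  obtain ⟨r, hr, C, hC⟩ := Helper80.SR.exp_whp hΔ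
  obtain ⟨D, ε, δ₀, hε, hδ₀, hev⟩ := Helper80.TL.numericT hr hη (mul_pos two_pos hΔ) (fun _ => 1)
  obtain ⟨E, hE⟩ := hPB D
  set c : ℝ := 12 * 3 ^ E with hc
  have hc0 : 0 < c := by positivity
  have hc1 : 1 ≤ c := by
    have h1 : (1 : ℝ) ≤ 3 ^ E := one_le_pow₀ (by norm_num)
    rw [hc]
    linarith
  set δ := min (δ₀ / c) (3 * Δ / (D + 1)) with hδdef
  have hδ : 0 < δ := by
    rw [hδdef]
    positivity
  have hδc : δ * c ≤ δ₀ := by
    rw [← le_div_iff₀ hc0]
    exact min_le_left _ _
  have hδD : (D + 1) * δ ≤ 3 * Δ := by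
    have h1 : δ ≤ 3 * Δ / (D + 1) := min_le_right _ _
    rw [le_div_iff₀ (by positivity)] at h1
    linarith
  refine ⟨ε, δ, E, hε, hδ, ?_⟩
  have hlim : Tendsto (fun n : ℕ => 1 - C / (n : ℝ)) atTop (𝓝 1) := by
    have := (tendsto_const_div_atTop_nhds_zero_nat C).const_sub 1
    simpa using this
  set κ₁ : ℕ := 3 * (locK D 1 + 1) with hκ₁
  have hev2 : ∀ᶠ n : ℕ in atTop, 2 * (κ₁ : ℝ) ≤ δ₀ * n := by
    have h1 : Tendsto (fun n : ℕ => δ₀ * (n : ℝ)) atTop atTop :=
      tendsto_natCast_atTop_atTop.const_mul_atTop hδ₀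
    exact h1.eventually_ge_atTop _
  refine tendsto_of_tendsto_of_tendsto_of_le_of_le' hlim tendsto_const_nhds ?_ ?_
  · filter_upwards [hev, hev2, eventually_ge_atTop 3] with n hn hn2 hn3
    obtain ⟨w, l, h, P, M₀, K, h1, h2, h3, h4, h5, h6, h7, h8, h9, h10, h11, h12⟩ := hn
    have hn0 : (0 : ℝ) < n := by
      have : 0 < n := by omega
      exact_mod_cast this
    have hδn : 0 < δ * n := by positivity
    have hδδ₀ : δ * n ≤ δ₀ * n := by
      refine mul_le_mul_of_nonneg_right ?_ hn0.le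
      nlinarith
    set m := ⌊Δ * n⌋₊ with hm
    set Q : (Fin m → Clause n) → Prop := fun F => ∀ B : ℕ, 1 ≤ B → ∀ Y : Set (Fin n),
        Y.ncard ≤ δ * n → Concl ε δ η (δ * n / B ^ E) F B Y with hQ
    -- moderate `B`
    have hmod : ∀ F : Fin m → Clause n, Helper80.SR.Exp (vsF F) ⌊r * n⌋₊ → ∀ B : ℕ, 1 ≤ B →
        ∀ Y : Set (Fin n), Y.ncard ≤ δ * n →
        2 * (3 * (locK D B + 1)) ≤ K → Concl ε δ η (δ * n / B ^ E) F B Y := by
      intro F hF B hB1 Y hYc hBK π a X hXa hX
      set κ := 3 * (locK D B + 1) with hκ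
      have hκ1 : 1 ≤ κ := by omega
      set K' := K / (2 * κ) with hK'
      have hK'1 : 1 ≤ K' := (Nat.one_le_div_iff (by omega)).mpr hBK
      have hK'2 : K' * (2 * κ) ≤ K := Nat.div_mul_le_self _ _
      have hK'3 : K < (K' + 1) * (2 * κ) := by
        rw [hK', mul_comm]
        exact Nat.lt_mul_div_succ K (by omega)
      set H₁ := univ.filter (fun i : Fin n =>
        D < (univ.filter (fun c => i ∈ vsF F c)).card) with hH₁
      set H₂ := univ.filter (fun i : Fin n => i ∈ Y) with hH₂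
      set Hd := H₁ ∪ H₂ with hHd
      have hcard := Helper80.TL.card_high F D
      rw [← hH₁] at hcard
      have hYH : Y ⊆ Hd := by
        intro i hi
        rw [hHd, coe_union]
        right
        rw [hH₂]
        simpa using hi
      have hHd' : ((D + 1) * Hd.card : ℝ) ≤ 3 * (2 * Δ * n) := by
        have e1 : (((D + 1) * H₁.card : ℕ) : ℝ) ≤ ((3 * m : ℕ) : ℝ) := by exact_mod_cast hcard
        push_cast at e1
        have e2 : (m : ℝ) ≤ Δ * n := Nat.floor_le (by positivity)
        have e3 : (H₂.card : ℝ) ≤ δ * n := by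
          refine le_trans (le_of_eq ?_) hYc
          rw [← Set.ncard_coe_finset]
          congr 2
          rw [hH₂]
          ext i
          simp
        have e4 : (Hd.card : ℝ) ≤ H₁.card + H₂.card := by exact_mod_cast card_union_le _ _
        have e5 : ((D : ℝ) + 1) * Hd.card ≤ (D + 1) * (H₁.card + H₂.card) :=
          mul_le_mul_of_nonneg_left e4 (by positivity)
        have e6 : ((D : ℝ) + 1) * H₂.card ≤ (D + 1) * (δ * n) :=
          mul_le_mul_of_nonneg_left e3 (by positivity)
        have e7 : ((D : ℝ) + 1) * (δ * n) ≤ 3 * Δ * n := by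
          rw [← mul_assoc]
          exact mul_le_mul_of_nonneg_right hδD hn0.le
        linarith
      have hBE : (1 : ℝ) ≤ (B : ℝ) ^ E := one_le_pow₀ (by exact_mod_cast hB1)
      have hκE : (κ : ℝ) ≤ 3 ^ E * B ^ E := by
        have e1 : (κ : ℝ) ≤ ((B : ℝ) + 2) ^ E := by exact_mod_cast hE B
        refine e1.trans ?_
        rw [← mul_pow]
        refine pow_le_pow_left₀ (by positivity) ?_ E
        have : (1 : ℝ) ≤ B := by exact_mod_cast hB1
        linarith
      have hθ : δ * n / B ^ E ≤ δ * n := div_le_self hδn.le hBE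
      have hθK : 3 * (δ * n / B ^ E) ≤ K' := by
        -- `12 κ θ ≤ K ≤ 4 κ K'`
        have e1 : (K : ℝ) ≤ 4 * κ * K' := by
          have e2 : K ≤ 4 * κ * K' := by
            have e3 : (K' + 1) * (2 * κ) ≤ 2 * K' * (2 * κ) :=
              Nat.mul_le_mul_right _ (by omega)
            have e4 : 2 * K' * (2 * κ) = 4 * κ * K' := by ring
            omega
          exact_mod_cast e2
        have e5 : δ₀ * n ≤ K := by linarith
        have hBE0 : (0 : ℝ) < (B : ℝ) ^ E := by linarith
        have hκ0 : (0 : ℝ) < κ := by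
          have : 0 < κ := hκ1
          exact_mod_cast this
        have e6 : 12 * κ * (δ * n / B ^ E) ≤ δ₀ * n := by
          have e7 : 12 * (κ : ℝ) * (δ * n / B ^ E) ≤ 12 * (3 ^ E * B ^ E) * (δ * n / B ^ E) := by
            refine mul_le_mul_of_nonneg_right ?_ (by positivity)
            linarith
          have e8 : 12 * ((3 : ℝ) ^ E * B ^ E) * (δ * n / B ^ E) = (δ * c) * n := by
            rw [hc]
            field_simp
          rw [e8] at e7
          exact e7.trans (mul_le_mul_of_nonneg_right hδc hn0.le)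
        have e9 : 4 * (κ : ℝ) * (3 * (δ * n / B ^ E)) ≤ 4 * κ * K' := by
          have : 4 * (κ : ℝ) * (3 * (δ * n / B ^ E)) = 12 * κ * (δ * n / B ^ E) := by ring
          rw [this]
          linarith
        exact le_of_mul_le_mul_left e9 (by positivity)
      refine detP F (D := D) (B := B) (κ := κ) (h := h) (K := K') Y
        (fun π q R₀ M₀ P w l K a A₀ Hd ρ₀ G Ro X =>
          hIndQ hAl hEB B D n m F π q R₀ M₀ P w l K a A₀ Hd ρ₀ Y G Ro X) hF h1 h2 ?_
        Hd hYH (h4 _ hHd') ?_
        h5 h6 h7 h8 (by omega) hδn (by linarith) hθ hθK ?_ π a X hXa hX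
      · have e1 : 4 * κ * K' ≤ 2 * K := by
          have : 4 * κ * K' = 2 * (K' * (2 * κ)) := by ring
          omega
        omega
      · intro i hi
        by_contra hcon
        rw [not_le] at hcon
        exact hi (mem_union_left _ (mem_filter.mpr ⟨mem_univ _, hcon⟩))
      · refine lt_of_le_of_lt ?_ h12
        have hw8 : 0 ≤ 1 - (w : ℝ) / (8 * n) := by
          have h1 : (w : ℝ) ≤ n := by exact_mod_cast h7
          rw [sub_nonneg, div_le_one (by positivity)]
          linarith
        refine mul_le_mul_of_nonneg_right ?_ (by positivity)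
        refine mul_le_mul_of_nonneg_right ?_ (pow_nonneg hw8 _)
        exact Real.rpow_le_rpow_of_exponent_le (by norm_num) hδδ₀
    have hgood : ∀ F : Fin m → Clause n, Helper80.SR.Exp (vsF F) ⌊r * n⌋₊ → Q F := by
      intro F hF B hB1 Y hYc
      by_cases hBK : 2 * (3 * (locK D B + 1)) ≤ K
      · exact hmod F hF B hB1 Y hYc hBK
      rw [not_le] at hBK
      have hBE : (1 : ℝ) ≤ (B : ℝ) ^ E := one_le_pow₀ (by exact_mod_cast hB1)
      have h1K : 2 * (3 * (locK D 1 + 1)) ≤ K := by
        have e1 : ((2 * κ₁ : ℕ) : ℝ) ≤ K := by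
          push_cast
          linarith
        exact_mod_cast e1
      refine concl_large hB1 (hmod F hF 1 le_rfl Y hYc h1K) (by positivity) ?_ ?_
      · rw [Nat.cast_one, one_pow, div_one]
        exact div_le_self hδn.le hBE
      · have e1 : (K : ℝ) < 2 * (3 ^ E * B ^ E) := by
          have e2 : (K : ℝ) < 2 * ((3 * (locK D B + 1) : ℕ) : ℝ) := by exact_mod_cast hBK
          have e3 : ((3 * (locK D B + 1) : ℕ) : ℝ) ≤ ((B : ℝ) + 2) ^ E := by
            exact_mod_cast hE B
          have e4 : ((B : ℝ) + 2) ^ E ≤ 3 ^ E * B ^ E := by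
            rw [← mul_pow]
            refine pow_le_pow_left₀ (by positivity) ?_ E
            have : (1 : ℝ) ≤ B := by exact_mod_cast hB1
            linarith
          linarith
        have e5 : δ * c * n ≤ K := by
          have := mul_le_mul_of_nonneg_right hδc hn0.le
          linarith
        rw [div_le_one (by linarith)]
        have e6 : δ * n * (12 * 3 ^ E) < 2 * (3 ^ E * B ^ E) := by
          have : δ * n * (12 * 3 ^ E) = δ * c * n := by
            rw [hc]
            ring
          linarith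
        have e7 : (0 : ℝ) < 3 ^ E := by positivity
        by_contra hcon
        rw [not_le] at hcon
        have e8 : (3 : ℝ) ^ E * B ^ E ≤ 3 ^ E * (δ * n) := mul_le_mul_of_nonneg_left hcon.le e7.le
        have e9 : 0 < (3 : ℝ) ^ E * (δ * n) := by positivity
        nlinarith
    have hbad := hC n m ⌊r * n⌋₊ hn3 (Nat.floor_le (by positivity))
      (Nat.floor_le (by positivity))
    have htot : 0 < Fintype.card (Fin m → Clause n) := by
      rw [Fintype.card_fun, card_clause]
      have : 0 < n.choose 3 := Nat.choose_pos hn3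
      positivity
    have htot' : (0 : ℝ) < Fintype.card (Fin m → Clause n) := by exact_mod_cast htot
    rw [Nat.card_eq_fintype_card, Nat.card_eq_fintype_card, le_div_iff₀ htot',
      Fintype.card_subtype]
    have hsplit : (univ.filter (fun F : Fin m → Clause n =>
        Helper80.SR.Exp (vsF F) ⌊r * n⌋₊)).card +
        (univ.filter (fun F : Fin m → Clause n => ¬ Helper80.SR.Exp (vsF F) ⌊r * n⌋₊)).card =
        Fintype.card (Fin m → Clause n) := by
      rw [Finset.card_filter_add_card_filter_not, card_univ]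
    have hsub : (univ.filter (fun F : Fin m → Clause n =>
        Helper80.SR.Exp (vsF F) ⌊r * n⌋₊)).card ≤
        (univ.filter (fun F : Fin m → Clause n => Q F)).card := by
      refine card_le_card ?_
      intro F hF
      exact mem_filter.mpr ⟨mem_univ _, hgood F (mem_filter.mp hF).2⟩
    have hsplit' : ((univ.filter (fun F : Fin m → Clause n =>
        Helper80.SR.Exp (vsF F) ⌊r * n⌋₊)).card : ℝ) +
        (univ.filter (fun F : Fin m → Clause n => ¬ Helper80.SR.Exp (vsF F) ⌊r * n⌋₊)).card =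
        Fintype.card (Fin m → Clause n) := by exact_mod_cast hsplit
    have hsub' : ((univ.filter (fun F : Fin m → Clause n =>
        Helper80.SR.Exp (vsF F) ⌊r * n⌋₊)).card : ℝ) ≤
        (univ.filter (fun F : Fin m → Clause n => Q F)).card := by exact_mod_cast hsub
    refine le_trans ?_ hsub'
    linarith
  · filter_upwards with n
    rw [Nat.card_eq_fintype_card, Nat.card_eq_fintype_card]
    refine div_le_one_of_le₀ ?_ (Nat.cast_nonneg _)
    exact_mod_cast Fintype.card_subtype_le _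

end Helper3.TQ
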